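import Pool.Agent.Helper15.FC.St1

/-! # Project FC (MP_16cbc0_nt): module EXF -/

set_option autoImplicit false

namespace Pool.Agent.Helper24.FC

open Pool.Agent.Helper15.FC Polynomial

theorem hEXF : StEXF := by
  intro k _ _ n hn
  obtain ⟨p, hp⟩ := CharP.exists k
  have hprime : Fact p.Prime := ⟨CharP.char_is_prime k p⟩
  have hn0 : NeZero n := ⟨by omega⟩
  refine ⟨FiniteField.Extension k p n, inferInstance, Fintype.ofFinite _, inferInstance, ?_⟩
  rw [Fintype.card_eq_nat_card, FiniteField.natCard_extension, Fintype.card_eq_nat_card]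

end Pool.Agent.Helper24.FC
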