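import Pool.Agent.Helper15.FC.St3

/-! # Project FC (MP_16cbc0_nt): module PAR -/

set_option autoImplicit false

namespace Pool.Agent.Helper24.FC

open Pool.Agent.Helper15.FC Polynomial

private lemma eq_of_dvd {F : Type} [Field F] [Fintype F] {m : ℕ} {g g' : F[X]} (hg : g ∈ Lw F m)
    (hg' : g' ∈ Lw F m) (h : (X ^ m : F[X]) ∣ g - g') : g = g' := by
  rw [mem_Lw] at hg hg'
  have h1 : (g - g').degree < (X ^ m : F[X]).degree := by
    rw [Polynomial.degree_X_pow]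
    exact lt_of_le_of_lt (Polynomial.degree_sub_le g g') (max_lt hg hg')
  exact sub_eq_zero.1 (Polynomial.eq_zero_of_dvd_of_degree_lt h h1)

private lemma core (hACF : StACF) (F : Type) [Field F] [Fintype F] (m : ℕ) (a : F[X] → ℂ) :
    ∑ η ∈ ACf (X ^ m : F[X]), (∑ g ∈ Lw F m, a g * η g) *
      (starRingEnd ℂ) (∑ g ∈ Lw F m, a g * η g) =
    (Fintype.card F : ℂ) ^ m * ∑ g ∈ Lw F m, a g * (starRingEnd ℂ) (a g) := by
  classical
  obtain ⟨h1, h2⟩ := hACF F
  obtain ⟨-, -, -, h3, h4⟩ := h2 (X ^ m) (Polynomial.monic_X_pow m)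
  rw [Polynomial.natDegree_X_pow] at h3
  have hη : ∀ η : AddChar F[X] ℂ, (∑ g ∈ Lw F m, a g * η g) *
      (starRingEnd ℂ) (∑ g ∈ Lw F m, a g * η g) =
      ∑ g ∈ Lw F m, ∑ g' ∈ Lw F m, a g * (starRingEnd ℂ) (a g') * η (g - g') := by
    intro η
    rw [map_sum, Finset.sum_mul_sum]
    refine Finset.sum_congr rfl fun g _ => Finset.sum_congr rfl fun g' _ => ?_
    rw [map_mul, ← (h1 η g').2, sub_eq_add_neg, AddChar.map_add_eq_mul]
    ring
  rw [Finset.sum_congr rfl fun η _ => hη η, Finset.sum_comm, Finset.mul_sum]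
  refine Finset.sum_congr rfl fun g hg => ?_
  rw [Finset.sum_comm, Finset.sum_eq_single g]
  · rw [← Finset.mul_sum, h3 _ (by rw [sub_self]; exact dvd_zero _)]
    ring
  · intro g' hg' hne
    rw [← Finset.mul_sum, h4 _ (fun hd => hne (eq_of_dvd hg hg' hd).symm), mul_zero]
  · intro h
    exact absurd hg h

theorem hPAR (hACF : StACF) : StPAR := by
  intro F _ _ m a
  have h := core hACF F m a
  have key : (((∑ η ∈ ACf (X ^ m : F[X]), ‖∑ g ∈ Lw F m, a g * η g‖ ^ 2 : ℝ)) : ℂ) =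
      ((qr F ^ m * ∑ g ∈ Lw F m, ‖a g‖ ^ 2 : ℝ) : ℂ) := by
    push_cast
    rw [Finset.sum_congr rfl fun η _ => (Complex.mul_conj' (∑ g ∈ Lw F m, a g * η g)).symm, h]
    congr 1
    exact Finset.sum_congr rfl fun g _ => Complex.mul_conj' (a g)
  exact_mod_cast key

end Pool.Agent.Helper24.FC
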